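import Pool.Agent.Helper80.EC_D.Goals

/-!
# MP_ecc237_nt, Part D: packet DSUM
-/

set_option autoImplicit false

open MeasureTheory Filter Topology Set

namespace EC237.PD

namespace PkDSUM

/-- the exponentially decaying majorant -/
noncomputable def ga (c : ℝ) (m : ℤ) : ℝ := (1 + |(m:ℝ)|) ^ 2 * Real.exp (-(c * |(m:ℝ)|))

/-- the quadratically decaying majorant -/
noncomputable def gb (m : ℤ) : ℝ := 1 / (1 + |(m:ℝ)|) ^ 2

lemma ga_nonneg (c : ℝ) (m : ℤ) : 0 ≤ ga c m := by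
  unfold ga; positivity

lemma gb_nonneg (m : ℤ) : 0 ≤ gb m := by
  unfold gb; positivity

lemma summable_ga (c : ℝ) (hc : 0 < c) : Summable (ga c) := by
  have h0 : ∀ k : ℕ, Summable (fun n : ℕ => (n:ℝ) ^ k * Real.exp (-c * n)) := fun k =>
    Real.summable_pow_mul_exp_neg_nat_mul k hc
  have h1 : Summable (fun n : ℕ => (1 + (n:ℝ)) ^ 2 * Real.exp (-(c * n))) := by
    have h2 := ((h0 0).add ((h0 1).mul_left 2)).add (h0 2)
    refine h2.congr ?_
    intro n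
    have : -c * (n:ℝ) = -(c * n) := by ring
    rw [this]
    ring
  refine Summable.of_nat_of_neg ?_ ?_
  · refine h1.congr ?_
    intro n
    simp [ga]
  · refine h1.congr ?_
    intro n
    simp [ga]

lemma summable_gb : Summable gb := by
  have h1 : Summable (fun n : ℕ => 1 / (1 + (n:ℝ)) ^ 2) := by
    have h2 : Summable (fun n : ℕ => 1 / (n:ℝ) ^ 2) :=
      Real.summable_one_div_nat_pow.mpr (by norm_num)
    have h3 := (summable_nat_add_iff 1).mpr h2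
    refine h3.congr ?_
    intro n
    push_cast
    rw [add_comm (n:ℝ) 1]
  refine Summable.of_nat_of_neg ?_ ?_
  · refine h1.congr ?_
    intro n
    simp [gb]
  · refine h1.congr ?_
    intro n
    simp [gb]

lemma bound (h4 : EC237.N4) (y : ℝ) (hy : 0 < y) (C7 c C8 : ℝ) (hC7 : 0 < C7) (hC8 : 0 < C8)
    (h7 : ∀ (r m al : ℤ), |al| ≤ 1 → ‖xS y r m al 1‖ ≤ C7 * Real.exp (-(c * |(m:ℝ)|)))
    (h8 : ∀ (r m al r' m' al' : ℤ), |al| ≤ 1 → |al'| ≤ 1 →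
      (m - r) % 3 = 0 → (m' - r') % 3 = 0 →
      ‖hS y r m al 0 - hS y r' m' al' 0‖ ≤
        C8 * (1 + |(|(m:ℝ)| - |(m':ℝ)|)|) / ((1 + |(m:ℝ)|) * (1 + |(m':ℝ)|)))
    (r1 r2 a b : ℤ) :
    ‖X y r1 a * (V y r2 b - V y (r1 + r2) (a + b))‖ ≤ C7 * C8 * (ga c a * gb b) := by
  have hnn : 0 ≤ C7 * C8 * (ga c a * gb b) :=
    mul_nonneg (mul_nonneg hC7.le hC8.le) (mul_nonneg (ga_nonneg c a) (gb_nonneg b))
  have hz : ∀ (r m al : ℤ), (m - r) % 3 ≠ 0 → ∀ i : ℕ, hS y r m al i = 0 ∧ dS y r m al i = 0 ∧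
      xS y r m al i = 0 := fun r m al =>
    (h4 y hy r m al).2.2.2.2.2.2.2.2.2.2.2
  by_cases ha : (a - r1) % 3 = 0
  · by_cases hb : (b - r2) % 3 = 0
    · have hab : ((a + b) - (r1 + r2)) % 3 = 0 := by omega
      have e1 := h8 r2 b 0 (r1 + r2) (a + b) 0 (by norm_num) (by norm_num) hb hab
      have e2 := h7 r1 a 1 (by norm_num)
      rw [norm_mul]
      have hA : 0 ≤ |(a:ℝ)| := abs_nonneg _
      have hB : 0 ≤ |(b:ℝ)| := abs_nonneg _
      have hAB : 0 ≤ |(((a + b : ℤ)):ℝ)| := abs_nonneg _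
      have t1 : |(b:ℝ)| ≤ |(a:ℝ)| + |(((a + b : ℤ)):ℝ)| := by
        push_cast
        have := abs_sub ((a:ℝ) + b) (a:ℝ)
        have h9 : (a:ℝ) + b - a = b := by ring
        rw [h9] at this
        linarith
      have t2 : |(|(b:ℝ)| - |(((a + b : ℤ)):ℝ)|)| ≤ |(a:ℝ)| := by
        have := abs_abs_sub_abs_le ((((a + b : ℤ)):ℝ)) (b:ℝ)
        rw [abs_sub_comm] at this
        refine this.trans (le_of_eq ?_)
        push_cast
        congr 1
        ring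
      have e3 : C8 * (1 + |(|(b:ℝ)| - |(((a + b : ℤ)):ℝ)|)|) /
          ((1 + |(b:ℝ)|) * (1 + |(((a + b : ℤ)):ℝ)|)) ≤
          C8 * ((1 + |(a:ℝ)|) ^ 2 * (1 / (1 + |(b:ℝ)|) ^ 2)) := by
        have p1 : 0 < 1 + |(b:ℝ)| := by linarith
        have p2 : 0 < 1 + |(((a + b : ℤ)):ℝ)| := by linarith
        rw [div_le_iff₀ (mul_pos p1 p2)]
        have q1 : C8 * ((1 + |(a:ℝ)|) ^ 2 * (1 / (1 + |(b:ℝ)|) ^ 2)) *
            ((1 + |(b:ℝ)|) * (1 + |(((a + b : ℤ)):ℝ)|)) =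
            C8 * ((1 + |(a:ℝ)|) * (((1 + |(a:ℝ)|) * (1 + |(((a + b : ℤ)):ℝ)|)) / (1 + |(b:ℝ)|))) := by
          field_simp
        rw [q1]
        apply mul_le_mul_of_nonneg_left _ hC8.le
        have q2 : 1 ≤ ((1 + |(a:ℝ)|) * (1 + |(((a + b : ℤ)):ℝ)|)) / (1 + |(b:ℝ)|) := by
          rw [le_div_iff₀ p1]
          nlinarith [mul_nonneg hA hAB]
        have q3 : 1 + |(|(b:ℝ)| - |(((a + b : ℤ)):ℝ)|)| ≤ (1 + |(a:ℝ)|) * 1 := by linarith
        exact q3.trans (mul_le_mul_of_nonneg_left q2 (by linarith))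
      have e4 : ‖V y r2 b - V y (r1 + r2) (a + b)‖ ≤
          C8 * ((1 + |(a:ℝ)|) ^ 2 * (1 / (1 + |(b:ℝ)|) ^ 2)) := by
        unfold V
        exact e1.trans e3
      have e5 : ‖X y r1 a‖ ≤ C7 * Real.exp (-(c * |(a:ℝ)|)) := by
        unfold X
        exact e2
      calc ‖X y r1 a‖ * ‖V y r2 b - V y (r1 + r2) (a + b)‖
          ≤ (C7 * Real.exp (-(c * |(a:ℝ)|))) *
            (C8 * ((1 + |(a:ℝ)|) ^ 2 * (1 / (1 + |(b:ℝ)|) ^ 2))) :=
            mul_le_mul e5 e4 (norm_nonneg _) (by positivity)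
        _ = C7 * C8 * (ga c a * gb b) := by
            unfold ga gb
            ring
    · have hab : ((a + b) - (r1 + r2)) % 3 ≠ 0 := by omega
      have z1 : V y r2 b = 0 := (hz r2 b 0 hb 0).1
      have z2 : V y (r1 + r2) (a + b) = 0 := (hz (r1 + r2) (a + b) 0 hab 0).1
      rw [z1, z2]
      simpa using hnn
  · have z1 : X y r1 a = 0 := (hz r1 a 1 ha 1).2.2
    rw [z1]
    simpa using hnn

theorem thm (h4 : EC237.N4) (h7 : EC237.N7) (h8 : EC237.N8) : EC237.PD.G_DSUM := by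
  intro y hy r
  obtain ⟨C7, c, hC7, hc, h7'⟩ := h7 y hy
  obtain ⟨C8, hC8, h8'⟩ := h8 y hy
  have h7x : ∀ (r m al : ℤ), |al| ≤ 1 → ‖xS y r m al 1‖ ≤ C7 * Real.exp (-(c * |(m:ℝ)|)) :=
    fun r m al hal => (h7' r m al hal).2.2.2.2.2
  have hs : Summable (fun p : ℤ × ℤ => ga c p.1 * gb p.2) :=
    (summable_ga c hc).mul_of_nonneg summable_gb (ga_nonneg c) gb_nonneg
  have hs' : Summable (fun p : ℤ × ℤ => ga c p.2 * gb p.1) := by
    have := (Equiv.prodComm ℤ ℤ).summable_iff.mpr hs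
    exact this
  refine ⟨?_, ?_⟩
  · refine Summable.of_norm_bounded (hs.mul_left (C7 * C8)) ?_
    intro p
    exact bound h4 y hy C7 c C8 hC7 hC8 h7x h8' 1 r p.1 p.2
  · refine Summable.of_norm_bounded (hs'.mul_left (C7 * C8)) ?_
    intro p
    have := bound h4 y hy C7 c C8 hC7 hC8 h7x h8' r 1 p.2 p.1
    rw [add_comm r 1, add_comm p.2 p.1] at this
    exact this

end PkDSUM

end EC237.PD
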